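import Pool.Agent.Q193.NG.Scale
import Pool.Agent.Q193.NE.Gau

set_option autoImplicit false

/-!
Suitable weak `1`-periodic solutions of the Navier-Stokes equations with viscosity `ν`; `ε > 0`.
Let `A n` be the set of the points `z` at which the solution is not `ε`-quiet at the scale `r = 2⁻ⁿ`:
`z` is singular, or in the parabolic cylinder of radius `r` about `z` the scale invariant norm
`L² L^∞` (square integrable in time, bounded in space) of the velocity is larger than `ε √ν`, or that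
of one of its derivatives or a derivative of the vorticity is larger than allowed by the analytic
bounds with constant `ε` (definition `Quiet`); the points with `|ω| > ε ν 4ⁿ` are in `A n`.
The sum over `n` of the one-dimensional parabolic contents of the sets `A n` (covers by cylinders
with radii between `2⁻ⁿ` and `δ`) is at most `C / ν` times the total dissipation. The parabolic
`h`-measure of the singular set is zero for each gauge `h` with `h(r) / r` nonincreasing and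
`∫ dr / h(r) = ∞` at `0`, for example `h(r) = r log (1/r) log log (1/r)`.

`V = Fin 3 → ℝ` with the maximum norm. See the claim file for the definitions.
-/

open MeasureTheory Set Metric Filter Topology
open scoped ContDiff ENNReal

namespace Pool.Agent.Results.MP_6bf1e5_an.QuietScales

open H459R3.NS W221.NS Pool.Agent.Y8

/-- The smallest sum of the radii of countably many parabolic cylinders
`|t - s| ≤ r² / ν`, `‖x - y‖ ≤ r` with radii in `[a, b]` which cover `A`. -/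
noncomputable def content (ν a b : ℝ) (A : Set (ℝ × V)) : ℝ≥0∞ :=
  sInf {s | ∃ (ι : Type) (_ : Countable ι) (c : ι → ℝ × V) (r : ι → ℝ),
    (∀ i, a ≤ r i ∧ r i ≤ b) ∧
    (∀ z ∈ A, ∃ i, |z.1 - (c i).1| ≤ r i ^ 2 / ν ∧ ‖z.2 - (c i).2‖ ≤ r i) ∧
    s = ∑' i, ENNReal.ofReal (r i)}

/-- The set `A` has parabolic Hausdorff measure zero for the gauge `h`: for all `δ, ε > 0` it is
covered by countably many parabolic cylinders with radii at most `δ` and `∑ h(rᵢ) ≤ ε`. -/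
def ParabolicNull (h : ℝ → ℝ) (A : Set (ℝ × V)) : Prop :=
  ∀ δ : ℝ, 0 < δ → ∀ ε : ℝ, 0 < ε → ∃ (ι : Type) (_ : Countable ι) (c : ι → ℝ × V) (r : ι → ℝ),
    (∀ i, 0 < r i ∧ r i ≤ δ) ∧
    (∀ z ∈ A, ∃ i, |z.1 - (c i).1| ≤ r i ^ 2 ∧ ‖z.2 - (c i).2‖ ≤ r i) ∧
    ∑' i, ENNReal.ofReal (h (r i)) ≤ ENNReal.ofReal ε

/-- The vorticity of `v`, as the antisymmetric matrix `∂ᵢ vⱼ - ∂ⱼ vᵢ`. -/
noncomputable def vorticity (v : V → V) (x : V) : Fin 3 → Fin 3 → ℝ :=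
  fun i j => fderiv ℝ v x (Pi.single i 1) j - fderiv ℝ v x (Pi.single j 1) i

/-- The solution is `ε`-quiet at the point `z` at the scale `r`. With `B` the open ball of radius `r`
about `z.2` and `I` the set of the times of `G` in the open interval of half length `r² / ν` about
`z.1` (the times outside `G` are a null set):

`z` is not a singular point; for all `n ≥ 0` the integral over `I` of the square of the supremum
over `B` of the norm of the derivative of order `n` of the velocity is at most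
`(ε^(n+1) n!)² ν / r^(2n)`, and at the times of `I` and the points of `B` the derivative of order
`n` of the vorticity has norm at most `ε^(n+1) n! ν / r^(n+2)`. -/
structure Quiet (ε ν : ℝ) (G : Set ℝ) (u : ℝ → V → V) (r : ℝ) (z : ℝ × V) : Prop where
  regular : ¬ SingPt G u z.1 z.2
  velocity_le : ∀ n : ℕ, ∫⁻ t in G ∩ Ioo (z.1 - r ^ 2 / ν) (z.1 + r ^ 2 / ν),
    (⨆ x ∈ ball z.2 r, ENNReal.ofReal ‖iteratedFDeriv ℝ n (u t) x‖) ^ 2
      ≤ ENNReal.ofReal ((ε ^ (n + 1) * n.factorial) ^ 2 * ν / r ^ (2 * n))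
  vorticity_le : ∀ t ∈ G ∩ Ioo (z.1 - r ^ 2 / ν) (z.1 + r ^ 2 / ν), ∀ x ∈ ball z.2 r, ∀ n : ℕ,
    ‖iteratedFDeriv ℝ n (vorticity (u t)) x‖ ≤ ε ^ (n + 1) * n.factorial * ν / r ^ (n + 2)

/-- Countably many parabolic cylinders with radii at most `δ` and the sum of the radii at most `B`,
such that the solution is `ε`-quiet at the scales `2⁻ⁿ`, `n ≥ n₀`, at all points with times in
`[α, β]` outside of these cylinders. -/
def QuietOutside (ε δ B ν α β : ℝ) (n₀ : ℕ) (G : Set ℝ) (u : ℝ → V → V) : Prop :=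
  ∃ (ι : Type) (_ : Countable ι) (c : ι → ℝ × V) (r : ι → ℝ),
    (∀ i, 0 < r i ∧ r i ≤ δ) ∧ ∑' i, ENNReal.ofReal (r i) ≤ ENNReal.ofReal B ∧
    ∀ z : ℝ × V, z.1 ∈ Icc α β → z.2 ∈ cube →
      (∀ i, ¬ (|z.1 - (c i).1| ≤ r i ^ 2 / ν ∧ ‖z.2 - (c i).2‖ ≤ r i)) →
        ∀ n : ℕ, n₀ ≤ n → Quiet ε ν G u ((1 / 2) ^ n) z

/-- The covers for viscosity one give covers. -/
lemma cover_of {ν T E D α β δ lo ε r : ℝ} {G : Set ℝ} {u : ℝ → V → V} {p : ℝ → V → ℝ}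
    {H : ℝ≥0∞} (hν : 0 < ν) (hu : Turb ν T E D G u p)
    (hcov : Pool.Agent.Q193.NE.CovN lo δ {z | z.1 ∈ Icc (ν * α) (ν * β) ∧ z.2 ∈ cube ∧
      ¬ Pool.Agent.Q193.NG.Quiet ε 1 {t | t / ν ∈ G} (fun t x => ν⁻¹ • u (t / ν) x) r z} H) :
    ∃ (ι : Type) (_ : Countable ι) (c : ι → ℝ × V) (r' : ι → ℝ),
    (∀ i, lo ≤ r' i ∧ r' i ≤ δ) ∧
    (∀ z ∈ {z | z.1 ∈ Icc α β ∧ z.2 ∈ cube ∧ ¬ Quiet ε ν G u r z},
      ∃ i, |z.1 - (c i).1| ≤ r' i ^ 2 / ν ∧ ‖z.2 - (c i).2‖ ≤ r' i) ∧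
    ∑' i, ENNReal.ofReal (r' i) ≤ H := by
  obtain ⟨ι, hι, c, r', h3, h4, h5⟩ := hcov
  refine ⟨ι, hι, fun i => ((c i).1 / ν, (c i).2), r', h3, ?_, h5⟩
  rintro z ⟨hz1, hz2, hz3⟩
  have hz : ((ν * z.1, z.2) : ℝ × V) ∈ ⋃ i, Pool.Agent.Q193.NS.clc (c i) (r' i) := by
    refine h4 ⟨⟨mul_le_mul_of_nonneg_left hz1.1 hν.le, mul_le_mul_of_nonneg_left hz1.2 hν.le⟩, hz2,
      fun hq => hz3 ?_⟩
    obtain ⟨q1, q2, q3⟩ := Pool.Agent.Q193.NG.quiet_scale hν hu hq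
    exact ⟨q1, q2, q3⟩
  obtain ⟨i, hi1, hi2⟩ := mem_iUnion.1 hz
  refine ⟨i, ?_, hi2⟩
  have hi1 : |ν * z.1 - (c i).1| ≤ r' i ^ 2 := hi1
  have e : z.1 - (c i).1 / ν = (ν * z.1 - (c i).1) / ν := by
    field_simp
  show |z.1 - (c i).1 / ν| ≤ r' i ^ 2 / ν
  rw [e, abs_div, abs_of_pos hν]
  exact div_le_div_of_nonneg_right hi1 hν.le

/-- The two forms of the conclusion. -/
lemma both {ν T E D α β δ ε B : ℝ} {G : Set ℝ} {u : ℝ → V → V} {p : ℝ → V → ℝ}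
    {H : ℕ → ℝ≥0∞} {n₀ q : ℕ} (hν : 0 < ν) (hu : Turb ν T E D G u p)
    (hH : ∑' n, H n ≤ ENNReal.ofReal B)
    (hcov : ∀ n, Pool.Agent.Q193.NE.CovN (rr (n + n₀)) δ {z | z.1 ∈ Icc (ν * α) (ν * β) ∧
      z.2 ∈ cube ∧ ¬ Pool.Agent.Q193.NG.Quiet ε 1 {t | t / ν ∈ G} (fun t x => ν⁻¹ • u (t / ν) x)
        (rr (n + n₀ + q)) z} (H n)) :
    ∑' n : ℕ, content ν ((1 / 2) ^ (n + (n₀ + q))) δ {z | z.1 ∈ Icc α β ∧ z.2 ∈ cube ∧
          ¬ Quiet ε ν G u ((1 / 2) ^ (n + (n₀ + q))) z} ≤ ENNReal.ofReal B ∧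
    QuietOutside ε δ B ν α β (n₀ + q) G u := by
  have h1 : ∀ n, ∃ (ι : Type) (_ : Countable ι) (c : ι → ℝ × V) (r' : ι → ℝ),
      (∀ i, rr (n + n₀) ≤ r' i ∧ r' i ≤ δ) ∧
      (∀ z ∈ {z | z.1 ∈ Icc α β ∧ z.2 ∈ cube ∧ ¬ Quiet ε ν G u ((1 / 2) ^ (n + (n₀ + q))) z},
        ∃ i, |z.1 - (c i).1| ≤ r' i ^ 2 / ν ∧ ‖z.2 - (c i).2‖ ≤ r' i) ∧
      ∑' i, ENNReal.ofReal (r' i) ≤ H n := by
    intro n
    have := cover_of hν hu (hcov n)
    rw [add_assoc] at this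
    exact this
  choose ι hι c r' ha hb hc using h1
  have hlo : ∀ n : ℕ, ((1 : ℝ) / 2) ^ (n + (n₀ + q)) ≤ rr (n + n₀) := fun n =>
    pow_le_pow_of_le_one (by norm_num) (by norm_num) (by omega)
  have hpos : ∀ n : ℕ, 0 < rr (n + n₀) := fun n => by
    unfold rr
    positivity
  constructor
  · refine le_trans (ENNReal.tsum_le_tsum fun n => ?_) hH
    refine le_trans (sInf_le ?_) (hc n)
    exact ⟨ι n, hι n, c n, r' n, fun i => ⟨(hlo n).trans (ha n i).1, (ha n i).2⟩, hb n, rfl⟩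
  · refine ⟨Σ n, ι n, inferInstance, fun j => c j.1 j.2, fun j => r' j.1 j.2,
      fun j => ⟨(hpos j.1).trans_le (ha j.1 j.2).1, (ha j.1 j.2).2⟩, ?_, ?_⟩
    · rw [ENNReal.tsum_sigma' (f := fun j : Σ n, ι n => ENNReal.ofReal (r' j.1 j.2))]
      exact (ENNReal.tsum_le_tsum hc).trans hH
    · intro z hz1 hz2 hz3 n hn
      by_contra hq
      obtain ⟨k, hk⟩ := Nat.exists_eq_add_of_le' hn
      rw [hk] at hq
      obtain ⟨i, hi⟩ := hb k z ⟨hz1, hz2, hq⟩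
      exact hz3 ⟨k, i⟩ hi

theorem result :
    (∀ ε : ℝ, 0 < ε → ∃ C : ℝ, 0 < C ∧
      ∀ ν T E D δ α β : ℝ, 0 < ν → 0 < δ → 0 < α → β < T → ∃ n₀ : ℕ,
      ∀ (G : Set ℝ) (u : ℝ → V → V) (p : ℝ → V → ℝ), Turb ν T E D G u p →
        ∑' n : ℕ, content ν ((1 / 2) ^ (n + n₀)) δ {z | z.1 ∈ Icc α β ∧ z.2 ∈ cube ∧
          ¬ Quiet ε ν G u ((1 / 2) ^ (n + n₀)) z} ≤ ENNReal.ofReal (C * D / ν) ∧
        QuietOutside ε δ (C * D / ν) ν α β n₀ G u) ∧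
    ∀ (ν T E D : ℝ) (G : Set ℝ) (u : ℝ → V → V) (p : ℝ → V → ℝ), 0 < ν → Turb ν T E D G u p →
      (∀ ε ε' : ℝ, 0 < ε → 0 < ε' → ∃ δ : ℝ, 0 < δ ∧ ∀ α β : ℝ, 0 < α → β < T → ∃ n₀ : ℕ,
        ∑' n : ℕ, content ν ((1 / 2) ^ (n + n₀)) δ {z | z.1 ∈ Icc α β ∧ z.2 ∈ cube ∧
          ¬ Quiet ε ν G u ((1 / 2) ^ (n + n₀)) z} ≤ ENNReal.ofReal ε' ∧
        QuietOutside ε δ ε' ν α β n₀ G u) ∧
      (∀ (h : ℝ → ℝ) (ρ : ℝ), 0 < ρ → (∀ r ∈ Ioo 0 ρ, 0 < h r) →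
        AntitoneOn (fun r => h r / r) (Ioo 0 ρ) →
        ¬ IntegrableAtFilter (fun r => (h r)⁻¹) (𝓝[>] 0) →
          ParabolicNull h {z | z.1 ∈ Ioo 0 T ∧ SingPt G u z.1 z.2}) ∧
      ParabolicNull (fun r => r * Real.log r⁻¹ * Real.log (Real.log r⁻¹))
        {z | z.1 ∈ Ioo 0 T ∧ SingPt G u z.1 z.2} := by
  refine ⟨fun ε hε => ?_, ?_⟩
  · obtain ⟨C, q, hC, hcont⟩ := Pool.Agent.Q193.NG.contentsq hε
    refine ⟨C, hC, fun ν T E D δ α β hν hδ hα hβ => ?_⟩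
    obtain ⟨n₀, hn₀⟩ := hcont (ν * T) (E / ν) (D / ν) δ (ν * α) (ν * β) hδ (mul_pos hν hα)
      (mul_lt_mul_of_pos_left hβ hν)
    refine ⟨n₀ + q, fun G u p hu => ?_⟩
    obtain ⟨H, hH, hcov⟩ := hn₀ _ _ _ (Pool.Agent.Y8.B.p_wscal ν T E D G u p hν hu).1
    rw [← mul_div_assoc] at hH
    exact both hν hu hH hcov
  · intro ν T E D G u p hν hu
    have key : ∀ (h : ℝ → ℝ) (ρ : ℝ), 0 < ρ → (∀ r ∈ Ioo 0 ρ, 0 < h r) →
        AntitoneOn (fun r => h r / r) (Ioo 0 ρ) →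
        ¬ IntegrableAtFilter (fun r => (h r)⁻¹) (𝓝[>] 0) →
          ParabolicNull h {z | z.1 ∈ Ioo 0 T ∧ SingPt G u z.1 z.2} := by
      intro h ρ hρ hpos hanti hni δ hδ ε hε
      obtain ⟨ι, hι, c, r, h1, h2, h3⟩ :=
        Pool.Agent.Q193.NE.null3 hν hu hρ hpos hanti hni δ hδ ε hε
      exact ⟨ι, hι, c, r, h1, fun z hz => mem_iUnion.1 (h2 hz), h3⟩
    refine ⟨fun ε ε' hε hε' => ?_, key, key Pool.Agent.Q193.NE.glog _ (Real.exp_pos _)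
      Pool.Agent.Q193.NE.glog_pos Pool.Agent.Q193.NE.glog_anti Pool.Agent.Q193.NE.glog_ni⟩
    obtain ⟨q, hq⟩ := Pool.Agent.Q193.NG.contents0q hε
    obtain ⟨δ, hδ, h0⟩ := hq (Pool.Agent.Y8.B.p_wscal ν T E D G u p hν hu).1 hε'
    refine ⟨δ, hδ, fun α β hα hβ => ?_⟩
    obtain ⟨n₀, H, hH, hcov⟩ := h0 (ν * α) (ν * β) (mul_pos hν hα) (mul_lt_mul_of_pos_left hβ hν)
    exact ⟨n₀ + q, both hν hu hH hcov⟩

end Pool.Agent.Results.MP_6bf1e5_an.QuietScales
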