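import Pool.Agent.Q85.VL.All
import Pool.Agent.Q95.CL.Far
import Pool.Agent.Q285.CL.WSc

/-!
Vortex lines at the singular points of the three-dimensional Navier-Stokes equations.

`V` is `ℝ³` with the maximum norm, `vort v` is the curl of `v`, `om v` its Euclidean length. A point
`a` is singular at the time `T` (`Sing T u a`) if `u` is unbounded in every neighbourhood of
`(T, a)`.

Let `a` be a singular point of a smooth solution in `(0, T) × Ω`, where `Ω` is any open set, with
finite energy and dissipation and integrable pressure (no periodicity, no boundary conditions; the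
class `DSl`). Then, at times arbitrarily close to `T` and in balls with centre `a` and arbitrarily
small radius, the directions of the large vorticities are not contained in an open half-space; two
of them make an angle larger than `arccos (-1/3) - ε`, the angle between two vertices of the regular
tetrahedron (109.4 degrees). More precisely the vortex lines of the large vorticities recirculate:
there is a closed chain of arcs of vortex lines in which the gaps between the consecutive arcs have
a total length smaller than `ε` times the total length of the arcs, so no function with bounded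
gradient increases along the vortex lines at a definite rate. No bound on the rate of the blow-up
and no continuity or coherence of the direction of the vorticity is assumed, and nothing is assumed
outside of a small ball.

Here `large` means `|ω(t, y)| > m(t, y)` where the threshold `m` (`Thr`) is any function in the Kato
class, uniformly in the time: besides the constants the functions `M / (ρ (1 + |log ρ|))²` of nearly
critical size, `ρ = ‖y - a‖ + √(T - t)` being the parabolic distance from `(T, a)`.

Smooth periodic solutions and smooth solutions in the whole space (the class `WSl`) which become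
unbounded at the time `T` have a singular point, and the theorem holds at each of their singular
points.
-/

open MeasureTheory Set
open H459R3.NS Pool.Agent.W268.NS Pool.Agent.Q67.VD
open Pool.Agent.Q85.CL (Sing Blow DSl WSl)
open Pool.Agent.Q85.VL (Thr Chained)

set_option autoImplicit false

namespace Pool.Agent.Results.MP_6bf1e5_an.VortexChains

/-- The vortex lines of the large vorticities near `a` and `T` recirculate. For all `T₀ ∈ [0, T)`,
`R > 0`, `ε > 0` and all thresholds `m` there is a time `t ∈ (T₀, T)` such that, `D` being the set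
of the `y` with `‖y - a‖ ≤ R` and `|ω(t, y)| > m(t, y)`,

(1) for every unit vector `e` there is `y ∈ D` with `e · ω(t, y) < ε |ω(t, y)|`;

(2) there are `x, y ∈ D` with `ω(t, x) · ω(t, y) < (ε - 1/3) |ω(t, x)| |ω(t, y)|`;

(3) there is a closed chain of arcs of vortex lines inside of `D`, in which the total length of the
gaps is smaller than `ε` times the total length of the arcs (`Chained`). -/
def Recirculates (T : ℝ) (u : ℝ → V → V) (a : V) : Prop :=
  ∀ (T₀ R ε : ℝ) (m : ℝ → V → ℝ), 0 ≤ T₀ → T₀ < T → 0 < R → 0 < ε → Thr T₀ T a R m →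
    ∃ t ∈ Ioo T₀ T, (∀ e : V, e ⬝ᵥ e = 1 →
        ∃ y, ‖y - a‖ ≤ R ∧ m t y < om (u t) y ∧ e ⬝ᵥ vort (u t) y < ε * om (u t) y) ∧
      (∃ x y : V, ‖x - a‖ ≤ R ∧ ‖y - a‖ ≤ R ∧ m t x < om (u t) x ∧ m t y < om (u t) y ∧
        vort (u t) x ⬝ᵥ vort (u t) y < (ε - 1 / 3) * (om (u t) x * om (u t) y)) ∧
      Chained (vort (u t)) {y | ‖y - a‖ ≤ R ∧ m t y < om (u t) y} ε

/-- Let `ν > 0`.

(a) `Recirculates` holds at every singular point `a ∈ Ω` of a smooth solution `(u, p)` of the
Navier-Stokes equations in `(0, T) × Ω`, `Ω` open, without force and with viscosity `ν`, finite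
energy, finite dissipation and integrable pressure.

(b) A smooth `1`-periodic solution on `[0, T) × ℝ³` which is unbounded has a singular point at the
time `T`, and `Recirculates` holds at each of its singular points.

(c) A smooth solution on `(0, T) × ℝ³` with bounded energy, finite dissipation and locally
integrable pressure, which is unbounded near the time `T`, has a singular point at the time `T`,
and `Recirculates` holds at each of its singular points.

(d) The function `M / (ρ (1 + |log ρ|))²`, `ρ = ‖y - a‖ + √(T - t)`, is a threshold for `M ≥ 0`. -/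
theorem result (ν T : ℝ) (u : ℝ → V → V) (p : ℝ → V → ℝ) (hν : 0 < ν) :
    (∀ (E : ℝ) (Ω : Set V), DSl ν T E Ω u p → ∀ a ∈ Ω, Sing T u a → Recirculates T u a) ∧
    (IsSol ν T u p → ((¬ ∃ B, ∀ t ∈ Ico 0 T, ∀ x, ‖u t x‖ ≤ B) → ∃ a, Sing T u a) ∧
      ∀ a, Sing T u a → Recirculates T u a) ∧
    (∀ E : ℝ, WSl ν T E u p → (Blow T u → ∃ a, Sing T u a) ∧
      ∀ a, Sing T u a → Recirculates T u a) ∧
    ∀ (T₀ : ℝ) (a : V) (R M : ℝ), 0 ≤ M → Thr T₀ T a R (fun t y =>
      M / ((‖y - a‖ + √(T - t)) * (1 + |Real.log (‖y - a‖ + √(T - t))|)) ^ 2) := by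
  have key : ∀ (q : ℝ → V → ℝ) (E : ℝ) (Ω : Set V), DSl ν T E Ω u q → ∀ a ∈ Ω, Sing T u a →
      Recirculates T u a := by
    intro q E Ω h a ha hs T₀ R ε m hT0 hT₀ hR hε hm
    obtain ⟨κ, hκd⟩ : ∃ κ, κ = min ε 1 / 2 := ⟨_, rfl⟩
    have hκ : 0 < κ := by rw [hκd]; positivity
    have hκ1 : κ ≤ 1 / 2 := by rw [hκd]; linarith [min_le_right ε 1]
    have hκε : κ ≤ ε := by rw [hκd]; linarith [min_le_left ε 1]
    obtain ⟨t, ht, hc⟩ := Q85.VL.chain hν h ha hs hT0 hT₀ hκ hR hm
    have hc1 : Chained (vort (u t)) {y | ‖y - a‖ ≤ R ∧ m t y < om (u t) y} κ :=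
      Q85.VL.Chained.congr one_pos (fun y _ => rfl)
        (hc (fun _ => 1) ⟨fun _ => Or.inl rfl, continuousOn_const⟩)
    have hte : ∀ e : V, e ⬝ᵥ e = 1 →
        ∃ y, ‖y - a‖ ≤ R ∧ m t y < om (u t) y ∧ e ⬝ᵥ vort (u t) y < κ * om (u t) y := by
      intro e he
      by_contra hcon
      push Not at hcon
      refine Q85.VL.not_chained (g := fun y => e ⬝ᵥ y) ?_ ?_ ?_ ?_ hc1
      · exact (Q85.VL.lin_smooth e).differentiable one_ne_zero
      · exact Q85.VL.lin_lip he
      · exact fun y hy => (hm.nonneg t ht y).trans_lt hy.2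
      · intro y hy
        rw [Q85.VL.lin_deriv]
        exact hcon y hy.1 hy.2
    refine ⟨t, ht, fun e he => ?_, ?_, hc1.mono subset_rfl hκε⟩
    · obtain ⟨y, h1, h2, h3⟩ := hte e he
      refine ⟨y, h1, h2, h3.trans_le (mul_le_mul_of_nonneg_right hκε ?_)⟩
      exact (hm.nonneg t ht y).trans h2.le
    · obtain ⟨x, y, hx, hy, hmx, hmy, hxy⟩ := Q85.VL.tetra_pair (v := u t) (m := m t)
        hκ hκ1 (hm.nonneg t ht) hte
      refine ⟨x, y, hx, hy, hmx, hmy, hxy.trans_le ?_⟩
      have h1 := (hm.nonneg t ht x).trans hmx.le
      have h2 := (hm.nonneg t ht y).trans hmy.le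
      have h3 := min_le_left ε 1
      exact mul_le_mul_of_nonneg_right (by rw [hκd]; linarith) (mul_nonneg h1 h2)
  have hb : ∀ a : V, a ∈ Metric.ball a (1 / 2) := fun a => Metric.mem_ball_self (by norm_num)
  refine ⟨key p, fun h => ⟨fun hu => Q85.CL.sing_unb h hu, fun a ha => ?_⟩, fun E h =>
    ⟨fun hB => Q85.CL.sing_whole Q95.CL.far Q285.CL.wsc hν h hB, fun a ha => ?_⟩,
    fun T₀ a R M hM => Q224.VL.stmEx T₀ T a R M hM⟩
  · obtain ⟨q, hD⟩ := Q85.CL.perD hν ha.pos h a
    exact key q _ _ hD a (hb a) ha
  · exact key p E _ (Q85.CL.whole_D h a) a (hb a) ha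

end Pool.Agent.Results.MP_6bf1e5_an.VortexChains
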