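import Pool.Agent.Q67.VD3.All

/-!
The direction of the vorticity and blow-up of the three-dimensional periodic Navier-Stokes
equations.

If the vorticity vectors, where they are large, lie in a cone on a scale `R₀(t)`, or if all of them
lie in a double cone (no orientation), then the total variation of the vorticity in small balls
satisfies the scale invariant bound `|ω|(B_r) ≤ K r`, because the flux of the vorticity through the
cross-sections of the cone is conserved. With this bound a small oscillation of the direction on a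
smaller scale `R₁(t)` controls the vortex stretching. In particular: if
`|sin ∠(ω(x,t), ω(y,t))| ≤ g(t) |x - y|^β` with ANY exponent `β ∈ (0, 1]` and `g ∈ L^q(0,T)`,
`q = 2 (1 + β) / β²`, then there is no blow-up.
Co-authors: helper95, helper129, helper153, helper199, helper225.
-/

open MeasureTheory Set Metric H459R3.NS Pool.Agent.W268.NS Pool.Agent.Q67.VD

set_option autoImplicit false

/-- `u` is a smooth `1`-periodic solution of the Navier-Stokes equations with viscosity `ν` on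
`[0, T)`, `om (u t) x` is the length of the vorticity `ω(x,t)`, `dir (u t) x = ω(x,t) / |ω(x,t)|`
its direction `ξ`, `len` the Euclidean length, `‖·‖` the maximum norm on `ℝ³`; `T₀ ∈ [0, T)`.

(1) Let `0 < β ≤ 1`, `ν > 0`, `E ≥ 0`. There is a constant `Λ` such that: if the energy and the
integral of `|ω|` at the time `T₀` are at most `E`, `g^q` is integrable on `(T₀, T)`,
`q = 2 (1 + β) / β²`, and `|ξ(x,t) × ξ(y,t)| ≤ g(t) ‖x - y‖^β` for all `x, y` at which the vorticity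
does not vanish, `T₀ < t < T`, then the enstrophy at the time `t` is at most
`exp (Λ ∫ (1 + g)^q)` times the enstrophy at the time `T₀`, and `u` is bounded on `[0, T)`.

(2) The same with `q = (2 β + 1) / β²` if `|ξ(x,t) - ξ(y,t)| ≤ g(t) ‖x - y‖^β` for all `x, y` at
which the vorticity exceeds `μ (1 + g(t))^(5 / (2 β))`; now `Λ` depends on `β, ν, E, μ`, and `E` is a
bound for the energy only.

(3) The general criterion, with an absolute constant `C`. Let at all times `t ∈ (T₀, T)` numbers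
`M, S > 0`, `0 < κ ≤ 1`, `0 < R₁ ≤ R₀ ≤ 1` and `A` be given such that
* the integral of `|uᵢ|` over each ball of radius `R₀` is at most `A R₀²`,
* `ν / R₁² + M² R₁² / ν + M log (R₀ / R₁) + A / R₀² ≤ Γ(t)` with an integrable function `Γ`,
* either `A + M R₀² ≤ κ S` and `ξ(x) · ξ(y) ≥ κ` if `‖x - y‖ ≤ R₀` and the vorticity exceeds `M` at
  `x` and `y`, or the integral of `|ω|` over each ball of radius `R₀ / 4` is at most `S R₀` and
  `|ξ(x) · ξ(y)| ≥ κ` if `‖x - y‖ ≤ R₀` and the vorticity does not vanish at `x` and `y`,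
* `|ξ(x) × ξ(y)| ≤ min (1, κ ν / (C S)) (1 + ‖x - y‖ / R₁)` if `‖x - y‖ ≤ R₀` and the vorticity
  exceeds `M` at `x` and `y`.
Then the enstrophy is at most `exp (C ∫ Γ)` times the enstrophy at the time `T₀`, and `u` is
bounded on `[0, T)`. -/
theorem Pool.Agent.Results.MP_6bf1e5_an.VorticityDirection.result :
    (∀ β ν E : ℝ, 0 < β → β ≤ 1 → 0 < ν → 0 ≤ E → ∃ Λ : ℝ, 0 < Λ ∧
      ∀ (T : ℝ) (u : ℝ → V → V) (p : ℝ → V → ℝ) (T₀ : ℝ) (g : ℝ → ℝ),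
      IsSol ν T u p → T₀ ∈ Ico 0 T → energy (u T₀) ≤ E → ∫ x in cube, om (u T₀) x ≤ E →
      (∀ t ∈ Ioo T₀ T, 0 ≤ g t) →
      (∀ t ∈ Ioo T₀ T, ∀ x y, 0 < om (u t) x → 0 < om (u t) y →
        len (crossProduct (dir (u t) x) (dir (u t) y)) ≤ g t * ‖x - y‖ ^ β) →
      IntegrableOn (fun t => g t ^ (2 * (1 + β) / β ^ 2)) (Ioo T₀ T) →
      (∀ t ∈ Ico T₀ T, enstrophy (u t) ≤ enstrophy (u T₀)
        * Real.exp (Λ * ∫ s in T₀..t, (1 + g s) ^ (2 * (1 + β) / β ^ 2))) ∧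
      ∃ B, ∀ t ∈ Ico 0 T, ∀ x i, |u t x i| ≤ B) ∧
    (∀ β ν E μ : ℝ, 0 < β → β ≤ 1 → 0 < ν → 0 ≤ E → 0 < μ → ∃ Λ : ℝ, 0 < Λ ∧
      ∀ (T : ℝ) (u : ℝ → V → V) (p : ℝ → V → ℝ) (T₀ : ℝ) (g : ℝ → ℝ),
      IsSol ν T u p → T₀ ∈ Ico 0 T → energy (u T₀) ≤ E → (∀ t ∈ Ioo T₀ T, 0 ≤ g t) →
      (∀ t ∈ Ioo T₀ T, ∀ x y, μ * (1 + g t) ^ (5 / (2 * β)) < om (u t) x →
        μ * (1 + g t) ^ (5 / (2 * β)) < om (u t) y →
        len (dir (u t) x - dir (u t) y) ≤ g t * ‖x - y‖ ^ β) →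
      IntegrableOn (fun t => g t ^ ((2 * β + 1) / β ^ 2)) (Ioo T₀ T) →
      (∀ t ∈ Ico T₀ T, enstrophy (u t) ≤ enstrophy (u T₀)
        * Real.exp (Λ * ∫ s in T₀..t, (1 + g s) ^ ((2 * β + 1) / β ^ 2))) ∧
      ∃ B, ∀ t ∈ Ico 0 T, ∀ x i, |u t x i| ≤ B) ∧
    ∃ C : ℝ, 0 < C ∧
      ∀ (ν T : ℝ) (u : ℝ → V → V) (p : ℝ → V → ℝ) (T₀ : ℝ) (A κ R₀ R₁ M S Γ : ℝ → ℝ), 0 < ν →
      IsSol ν T u p → T₀ ∈ Ico 0 T →
      (∀ t ∈ Ioo T₀ T, 0 < M t ∧ 0 < κ t ∧ κ t ≤ 1 ∧ 0 < R₁ t ∧ R₁ t ≤ R₀ t ∧ R₀ t ≤ 1 ∧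
        0 < S t ∧ (∀ x i, ∫ y in closedBall x (R₀ t), |u t y i| ≤ A t * R₀ t ^ 2) ∧
        ν / R₁ t ^ 2 + M t ^ 2 * R₁ t ^ 2 / ν + M t * Real.log (R₀ t / R₁ t) + A t / R₀ t ^ 2
          ≤ Γ t ∧
        ((A t + M t * R₀ t ^ 2 ≤ κ t * S t ∧
            ∀ x y, ‖x - y‖ ≤ R₀ t → M t < om (u t) x → M t < om (u t) y →
              κ t ≤ dir (u t) x ⬝ᵥ dir (u t) y) ∨
          ((∀ x, ∫ y in closedBall x (R₀ t / 4), om (u t) y ≤ S t * R₀ t) ∧
            ∀ x y, ‖x - y‖ ≤ R₀ t → 0 < om (u t) x → 0 < om (u t) y →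
              κ t ≤ |dir (u t) x ⬝ᵥ dir (u t) y|)) ∧
        ∀ x y, ‖x - y‖ ≤ R₀ t → M t < om (u t) x → M t < om (u t) y →
          len (crossProduct (dir (u t) x) (dir (u t) y))
            ≤ min 1 (κ t * ν / (C * S t)) * (1 + ‖x - y‖ / R₁ t)) →
      IntegrableOn Γ (Ioo T₀ T) →
      (∀ t ∈ Ico T₀ T, enstrophy (u t) ≤ enstrophy (u T₀) * Real.exp (C * ∫ s in T₀..t, Γ s)) ∧
      ∃ B, ∀ t ∈ Ico 0 T, ∀ x i, |u t x i| ≤ B := by
  refine ⟨fun β ν E hβ0 hβ1 hν hE => Pool.Agent.Q67.VD3.holder_sin hβ0 hβ1 hν hE,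
    fun β ν E μ hβ0 hβ1 hν hE hμ => Pool.Agent.Q67.VD3.holder_or hβ0 hβ1 hν hE hμ, ?_⟩
  exact Pool.Agent.Q67.VD3.crit
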