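import Pool.Agent.Q67.LV.All
import Pool.Agent.Q95.CL.Far
import Pool.Agent.Q285.CL.WSc

/-!
Unoriented directions of the large vorticities at the singular points of the three-dimensional
Navier-Stokes equations.

`V` is `ℝ³` with the maximum norm, `vort v` is the curl of `v`, `om v` its Euclidean length. A point
`a` is singular at the time `T` (`Sing T u a`) if `u` is unbounded in every neighbourhood of
`(T, a)`.

Let `a` be a singular point of a smooth solution in `(0, T) × Ω`, where `Ω` is any open set, with
finite energy and dissipation and integrable pressure (no periodicity, no boundary conditions; the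
class `DSl`). Then, at times arbitrarily close to `T` and in balls with centre `a` and arbitrarily
small radius, the vorticities larger than any given constant `M` do not lie in any double cone
around a line: their directions at this single time come close to every great circle. In particular
there are two arbitrarily large vorticities in the ball, at the same time, which are nearly
orthogonal. No bound on the rate of the blow-up and no continuity or coherence of the direction of
the vorticity is assumed, the direction is used without its orientation, nothing is assumed on the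
vorticities smaller than `M` and nothing is assumed outside of a small ball.

One of the two vorticities may even be taken larger than a threshold `m(t, x)` (`Thr`), which is any
function in the Kato class, uniformly in the time: besides the constants the functions
`M / (ρ (1 + |log ρ|))²` of nearly critical size, `ρ = ‖x - a‖ + √(T - t)` being the parabolic
distance from `(T, a)`.

Smooth periodic solutions and smooth solutions in the whole space (the class `WSl`) which become
unbounded at the time `T` have a singular point, and the theorem holds at each of their singular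
points.
-/

open MeasureTheory Set
open H459R3.NS Pool.Agent.W268.NS Pool.Agent.Q67.VD
open Pool.Agent.Q85.CL (Sing Blow DSl WSl)
open Pool.Agent.Q85.VL (Thr)

set_option autoImplicit false

namespace Pool.Agent.Results.MP_6bf1e5_an.VorticityDoubleCone

/-- The large vorticities near `a` and `T` are not contained in a double cone. For all
`T₀ ∈ [0, T)`, `R > 0`, `κ > 0`, all real `M` and all thresholds `m`:

(1) There is a time `t ∈ (T₀, T)` such that `|ω(t, x)| > m(t, x)` for some `x` with `‖x - a‖ ≤ R`,
and for every unit vector `e` there is a point `y` with `‖y - a‖ ≤ R`, `|ω(t, y)| > M` and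
`|e · ω(t, y)| < κ |ω(t, y)|`.

(2) There are a time `t ∈ (T₀, T)` and points `x, y` with `‖x - a‖, ‖y - a‖ ≤ R` such that
`|ω(t, x)| > m(t, x)`, `|ω(t, y)| > M` and `|ω(t, x) · ω(t, y)| < κ |ω(t, x)| |ω(t, y)|`. -/
def NoDouble (T : ℝ) (u : ℝ → V → V) (a : V) : Prop :=
  ∀ (T₀ R κ M : ℝ) (m : ℝ → V → ℝ), 0 ≤ T₀ → T₀ < T → 0 < R → 0 < κ → Thr T₀ T a R m →
    (∃ t ∈ Ioo T₀ T, (∃ x, ‖x - a‖ ≤ R ∧ m t x < om (u t) x) ∧
      ∀ e : V, e ⬝ᵥ e = 1 → ∃ y, ‖y - a‖ ≤ R ∧ M < om (u t) y ∧
        |e ⬝ᵥ vort (u t) y| < κ * om (u t) y) ∧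
    ∃ t ∈ Ioo T₀ T, ∃ x y : V, ‖x - a‖ ≤ R ∧ ‖y - a‖ ≤ R ∧ m t x < om (u t) x ∧
      M < om (u t) y ∧ |vort (u t) x ⬝ᵥ vort (u t) y| < κ * (om (u t) x * om (u t) y)

/-- Let `ν > 0`.

(a) `NoDouble` holds at every singular point `a ∈ Ω` of a smooth solution `(u, p)` of the
Navier-Stokes equations in `(0, T) × Ω`, `Ω` open, without force and with viscosity `ν`, finite
energy, finite dissipation and integrable pressure.

(b) A smooth `1`-periodic solution on `[0, T) × ℝ³` which is unbounded has a singular point at the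
time `T`, and `NoDouble` holds at each of its singular points.

(c) A smooth solution on `(0, T) × ℝ³` with bounded energy, finite dissipation and locally
integrable pressure, which is unbounded near the time `T`, has a singular point at the time `T`,
and `NoDouble` holds at each of its singular points.

(d) The function `M / (ρ (1 + |log ρ|))²`, `ρ = ‖y - a‖ + √(T - t)`, is a threshold for `M ≥ 0`. -/
theorem result (ν T : ℝ) (u : ℝ → V → V) (p : ℝ → V → ℝ) (hν : 0 < ν) :
    (∀ (E : ℝ) (Ω : Set V), DSl ν T E Ω u p → ∀ a ∈ Ω, Sing T u a → NoDouble T u a) ∧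
    (IsSol ν T u p → ((¬ ∃ B, ∀ t ∈ Ico 0 T, ∀ x, ‖u t x‖ ≤ B) → ∃ a, Sing T u a) ∧
      ∀ a, Sing T u a → NoDouble T u a) ∧
    (∀ E : ℝ, WSl ν T E u p → (Blow T u → ∃ a, Sing T u a) ∧
      ∀ a, Sing T u a → NoDouble T u a) ∧
    ∀ (T₀ : ℝ) (a : V) (R M : ℝ), 0 ≤ M → Thr T₀ T a R (fun t y =>
      M / ((‖y - a‖ + √(T - t)) * (1 + |Real.log (‖y - a‖ + √(T - t))|)) ^ 2) := by
  have key : ∀ (q : ℝ → V → ℝ) (E : ℝ) (Ω : Set V), DSl ν T E Ω u q → ∀ a ∈ Ω, Sing T u a →
      NoDouble T u a := by
    intro q E Ω h a ha hs T₀ R κ M m hT0 hT₀ hR hκ hm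
    refine ⟨Q67.LV.sing_dblM Q67.LV.stmLyapM hν h ha hs hT0 hT₀ hκ hR hm, ?_⟩
    obtain ⟨t, ht, ⟨x, hx, hMx⟩, hy⟩ :=
      Q67.LV.sing_dblM Q67.LV.stmLyapM hν h ha hs (M := max M 0) hT0 hT₀ hκ hR hm
    have hx0 : 0 < om (u t) x := (hm.nonneg t ht x).trans_lt hMx
    obtain ⟨y, hyR, hyM, hyk⟩ := hy ((om (u t) x)⁻¹ • vort (u t) x) (by
      rw [smul_dotProduct, dotProduct_smul, ← Pool.Agent.Q199.VD.om_sq, smul_eq_mul, smul_eq_mul]
      field_simp)
    rw [smul_dotProduct, smul_eq_mul, abs_mul, abs_of_pos (inv_pos.2 hx0)] at hyk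
    refine ⟨t, ht, x, y, hx, hyR, hMx, (le_max_left _ _).trans_lt hyM, ?_⟩
    calc |vort (u t) x ⬝ᵥ vort (u t) y|
        = om (u t) x * ((om (u t) x)⁻¹ * |vort (u t) x ⬝ᵥ vort (u t) y|) := by field_simp
      _ < om (u t) x * (κ * om (u t) y) := mul_lt_mul_of_pos_left hyk hx0
      _ = κ * (om (u t) x * om (u t) y) := by ring
  have hb : ∀ a : V, a ∈ Metric.ball a (1 / 2) := fun a => Metric.mem_ball_self (by norm_num)
  refine ⟨key p, fun h => ⟨fun hu => Q85.CL.sing_unb h hu, fun a ha => ?_⟩, fun E h =>
    ⟨fun hB => Q85.CL.sing_whole Q95.CL.far Q285.CL.wsc hν h hB, fun a ha => ?_⟩,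
    fun T₀ a R M hM => Q224.VL.stmEx T₀ T a R M hM⟩
  · obtain ⟨q, hD⟩ := Q85.CL.perD hν ha.pos h a
    exact key q _ _ hD a (hb a) ha
  · exact key p E _ (Q85.CL.whole_D h a) a (hb a) ha

end Pool.Agent.Results.MP_6bf1e5_an.VorticityDoubleCone
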